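import Pool.Agent.H20R2.RC.WORDS

namespace RC14
open scoped InnerProductSpace
open Finset

namespace RET

/-! ### the constant function -/

variable {m n : ℕ}

/-- the constant function -/
noncomputable def one (m n : ℕ) : V m n := WithLp.toLp 2 fun _ => 1

lemma one_apply (a : Tup m n) : one m n a = 1 := rfl

lemma inner_one (f : V m n) : ⟪one m n, f⟫_ℂ = ∑ a, f a := by
  rw [PiLp.inner_apply]
  refine Finset.sum_congr rfl fun a _ => ?_
  rw [one_apply]
  simp

lemma rep_one (g : Alt n) : repA m n g (one m n) = one m n := by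
  ext a
  rw [repA_apply]
  rfl

lemma TL_one {k : ℕ} (hk : 1 ≤ k) (y : Fin k → Alt n) :
    TL (repA m n) y (one m n) = one m n := by
  unfold TL
  simp only [LinearMap.smul_apply, LinearMap.add_apply, Module.End.one_apply,
    LinearMap.sum_apply, op_apply, rep_one]
  rw [Finset.sum_const, Finset.card_univ, Fintype.card_fin]
  have hk' : (k : ℂ) ≠ 0 := by
    have : k ≠ 0 := by omega
    exact_mod_cast this
  rw [← two_smul ℂ (one m n), ← Nat.cast_smul_eq_nsmul ℂ, smul_smul, smul_smul]
  have e1 : 1 / (2 * (k : ℂ)) * ((k : ℂ) * 2) = 1 := by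
    field_simp
  rw [mul_assoc, e1, one_smul, ← two_smul ℂ (one m n), smul_smul]
  norm_num

/-- the projection on the constants -/
noncomputable def J (m n : ℕ) : Module.End ℂ (V m n) :=
  (1 / (Fintype.card (Tup m n) : ℂ)) • (innerₛₗ ℂ (one m n)).smulRight (one m n)

lemma J_apply (f : V m n) :
    J m n f = ((1 / (Fintype.card (Tup m n) : ℂ)) * ⟪one m n, f⟫_ℂ) • one m n := by
  unfold J
  rw [LinearMap.smul_apply, LinearMap.smulRight_apply, smul_smul]
  rfl

lemma J_symm : (J m n).IsSymmetric := by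
  intro f g
  rw [J_apply, J_apply, inner_smul_left, inner_smul_right, map_mul, inner_conj_symm]
  have : (starRingEnd ℂ) (1 / (Fintype.card (Tup m n) : ℂ)) = 1 / (Fintype.card (Tup m n) : ℂ) := by
    rw [map_div₀, map_one, Complex.conj_natCast]
  rw [this]
  ring

lemma J_one [Nonempty (Tup m n)] : J m n (one m n) = one m n := by
  rw [J_apply, inner_one]
  simp only [one_apply, Finset.sum_const, Finset.card_univ, nsmul_eq_mul, mul_one]
  rw [one_div, inv_mul_cancel₀, one_smul]
  exact_mod_cast Fintype.card_ne_zero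

/-- a symmetric operator which fixes the constants and is small on mean zero functions -/
theorem pow_trace (T : Module.End ℂ (V m n)) (hT : T.IsSymmetric) (h1 : T (one m n) = one m n)
    (γ : ℝ) (hlo : ∀ f : V m n, ∑ a, f a = 0 → 0 ≤ (⟪T f, f⟫_ℂ).re)
    (hup : ∀ f : V m n, ∑ a, f a = 0 → (⟪T f, f⟫_ℂ).re ≤ (1 - γ) * ‖f‖ ^ 2) (L : ℕ) :
    rtr (T ^ L) ≤ 1 + Fintype.card (Tup m n) * Real.exp (-(γ * L)) := by
  classical
  rcases isEmpty_or_nonempty (Tup m n) with hE | hE
  · have : rtr (T ^ L) = 0 := by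
      unfold rtr
      rw [LinearMap.trace_eq_sum_inner _ (EuclideanSpace.basisFun (Tup m n) ℂ)]
      simp
    rw [this]
    positivity
  rcases Nat.eq_zero_or_pos L with hL | hL
  · subst hL
    unfold rtr
    rw [pow_zero, LinearMap.trace_one, finrank_V]
    simp
  set S : Module.End ℂ (V m n) := T - J m n with hS
  have hSs : S.IsSymmetric := hT.sub J_symm
  have hfr : Module.finrank ℂ (V m n) = Fintype.card (Tup m n) := finrank_V m n
  set b := hSs.eigenvectorBasis hfr with hb
  set μ := hSs.eigenvalues hfr with hμ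
  have hSb : ∀ i, S (b i) = (μ i : ℂ) • b i := fun i => hSs.apply_eigenvectorBasis hfr i
  have hTb : ∀ i, T (b i) = (μ i : ℂ) • b i + J m n (b i) := by
    intro i
    rw [← hSb, hS, LinearMap.sub_apply, sub_add_cancel]
  -- the constants are orthogonal to the other eigenvectors
  have hJT : ∀ f, J m n (T f) = J m n f := by
    intro f
    rw [J_apply, J_apply, ← hT (one m n) f, h1]
  have hJJ : ∀ f, J m n (J m n f) = J m n f := by
    intro f
    rw [J_apply f, map_smul, J_one]
  have hJS : ∀ f, J m n (S f) = 0 := by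
    intro f
    rw [hS, LinearMap.sub_apply, map_sub, hJT, hJJ, sub_self]
  have hJb : ∀ i, (μ i : ℂ) • J m n (b i) = 0 := by
    intro i
    rw [← map_smul, ← hSb, hJS]
  have hTJ : ∀ f, T (J m n f) = J m n f := by
    intro f
    rw [J_apply, map_smul, h1]
  have hpow : ∀ i (l : ℕ), (T ^ (l + 1)) (b i) = ((μ i : ℂ) ^ (l + 1)) • b i + J m n (b i) := by
    intro i l
    induction l with
    | zero => simp [hTb]
    | succ l ih =>
      rw [pow_succ', Module.End.mul_apply, ih, map_add, map_smul, hTb, hTJ, smul_add, smul_smul]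
      have : ((μ i : ℂ) ^ (l + 1)) • J m n (b i) = 0 := by
        rw [pow_succ, mul_smul, hJb, smul_zero]
      rw [this, add_zero, ← pow_succ]
  -- the eigenvalues
  have hμb : ∀ i, μ i = 0 ∨ (0 ≤ μ i ∧ μ i ≤ 1 - γ) := by
    intro i
    by_cases h0 : μ i = 0
    · exact Or.inl h0
    right
    have hJ0 : J m n (b i) = 0 := by
      have := hJb i
      rcases smul_eq_zero.mp this with h | h
      · exact absurd (by exact_mod_cast h) h0
      · exact h
    have hsum : ∑ a, (b i) a = 0 := by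
      rw [← inner_one]
      rw [J_apply] at hJ0
      rcases smul_eq_zero.mp hJ0 with h | h
      · rcases mul_eq_zero.mp h with h' | h'
        · exfalso
          rw [one_div, inv_eq_zero] at h'
          exact Fintype.card_ne_zero (α := Tup m n) (by exact_mod_cast h')
        · exact h'
      · exfalso
        obtain ⟨a⟩ := hE
        have h2 : one m n a = (0 : V m n) a := by rw [h]
        rw [one_apply] at h2
        simp at h2
    have e1 : (⟪T (b i), b i⟫_ℂ).re = μ i := by
      rw [hTb, hJ0, add_zero, inner_smul_left, b.inner_eq_one i, mul_one, Complex.conj_ofReal,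
        Complex.ofReal_re]
    have e2 := hlo _ hsum
    have e3 := hup _ hsum
    rw [e1] at e2 e3
    rw [b.norm_eq_one i] at e3
    exact ⟨e2, by linarith⟩
  have htJ : (LinearMap.trace ℂ (V m n) (J m n)).re ≤ 1 := by
    rw [LinearMap.trace_eq_sum_inner _ (EuclideanSpace.basisFun (Tup m n) ℂ)]
    have e1 : ∀ a : Tup m n, ⟪EuclideanSpace.basisFun (Tup m n) ℂ a,
        J m n (EuclideanSpace.basisFun (Tup m n) ℂ a)⟫_ℂ = 1 / (Fintype.card (Tup m n) : ℂ) := by
      intro a
      rw [J_apply, inner_smul_right, inner_one, ← inner_conj_symm, inner_one]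
      simp
    rw [Finset.sum_congr rfl fun a _ => e1 a, Finset.sum_const, Finset.card_univ, nsmul_eq_mul,
      mul_one_div_cancel (by exact_mod_cast Fintype.card_ne_zero)]
    simp
  obtain ⟨l, rfl⟩ : ∃ l, L = l + 1 := ⟨L - 1, by omega⟩
  have e1 : rtr (T ^ (l + 1)) = ∑ i, (μ i) ^ (l + 1) + (LinearMap.trace ℂ (V m n) (J m n)).re := by
    unfold rtr
    rw [LinearMap.trace_eq_sum_inner _ b, LinearMap.trace_eq_sum_inner (J m n) b, Complex.re_sum,
      Complex.re_sum, ← Finset.sum_add_distrib]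
    refine Finset.sum_congr rfl fun i _ => ?_
    rw [hpow, inner_add_right, inner_smul_right, b.inner_eq_one i, mul_one, Complex.add_re,
      ← Complex.ofReal_pow, Complex.ofReal_re]
  have e2 : ∀ i, (μ i) ^ (l + 1) ≤ Real.exp (-(γ * ((l + 1 : ℕ) : ℝ))) := by
    intro i
    rcases hμb i with h | ⟨h, h'⟩
    · rw [h, zero_pow (by omega)]
      positivity
    · have e3 : μ i ≤ Real.exp (-γ) := by
        have := Real.add_one_le_exp (-γ)
        linarith
      calc (μ i) ^ (l + 1) ≤ (Real.exp (-γ)) ^ (l + 1) := pow_le_pow_left₀ h e3 _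
        _ = Real.exp (-(γ * ((l + 1 : ℕ) : ℝ))) := by
          rw [← Real.exp_nat_mul]
          congr 1
          ring
  have e4 : ∑ i, (μ i) ^ (l + 1) ≤
      Fintype.card (Tup m n) * Real.exp (-(γ * ((l + 1 : ℕ) : ℝ))) := by
    refine (Finset.sum_le_sum fun i _ => e2 i).trans ?_
    rw [Finset.sum_const, Finset.card_univ, Fintype.card_fin, nsmul_eq_mul]
  rw [e1]
  linarith

/-! ### characters of the permutation representation -/

lemma mv_fix_iff (g : Equiv.Perm (Fin n)) (a : Tup m n) : mv g a = a ↔ ∀ l, g (a l) = a l := by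
  constructor
  · intro h l
    have := DFunLike.congr_fun h l
    exact this
  · intro h
    ext l
    rw [mv_apply, h]

/-- the number of fixed tuples -/
lemma card_fix (g : Equiv.Perm (Fin n)) :
    (univ.filter fun a : Tup m n => mv g a = a).card = (nfix g).descFactorial m := by
  classical
  have h1 : (nfix g).descFactorial m = Fintype.card (Fin m ↪ {a : Fin n // g a = a}) := by
    rw [Fintype.card_embedding_eq, Fintype.card_fin, Fintype.card_subtype]
    rfl
  rw [h1, ← Fintype.card_subtype]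
  refine Fintype.card_congr ?_
  exact
    { toFun := fun a => ⟨fun l => ⟨a.1 l, (mv_fix_iff g a.1).mp a.2 l⟩, fun l l' h => by
        have := congrArg Subtype.val h
        exact a.1.injective this⟩
      invFun := fun b => ⟨⟨fun l => (b l).1, fun l l' h => by
        exact b.injective (Subtype.ext h)⟩, (mv_fix_iff g _).mpr fun l => (b l).2⟩
      left_inv := fun a => by
        apply Subtype.ext
        ext l
        rfl
      right_inv := fun b => by
        ext l
        rfl }

lemma chr_repA (g : Alt n) :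
    chr (repA m n) g = ((nfix (g : Equiv.Perm (Fin n))).descFactorial m : ℂ) := by
  classical
  unfold chr
  rw [LinearMap.trace_eq_sum_inner _ (EuclideanSpace.basisFun (Tup m n) ℂ)]
  have e1 : ∀ a : Tup m n, ⟪EuclideanSpace.basisFun (Tup m n) ℂ a,
      op (repA m n) g (EuclideanSpace.basisFun (Tup m n) ℂ a)⟫_ℂ =
      if mv (g : Equiv.Perm (Fin n)) a = a then 1 else 0 := by
    intro a
    rw [EuclideanSpace.basisFun_apply, EuclideanSpace.inner_single_left, op_apply, repA_apply]
    have h2 : (mv (g : Equiv.Perm (Fin n))⁻¹ a = a) ↔ mv (g : Equiv.Perm (Fin n)) a = a := by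
      constructor
      · intro h
        conv_lhs => rw [← h]
        rw [← mv_mul, mul_inv_cancel, mv_one]
      · intro h
        conv_lhs => rw [← h]
        rw [← mv_mul, inv_mul_cancel, mv_one]
    by_cases h : mv (g : Equiv.Perm (Fin n)) a = a
    · rw [if_pos h, h2.mpr h]
      simp
    · rw [if_neg h]
      have h3 : mv (g : Equiv.Perm (Fin n))⁻¹ a ≠ a := fun h' => h (h2.mp h')
      simp [h3]
  rw [Finset.sum_congr rfl fun a _ => e1 a, Finset.sum_boole, card_fix]

section
variable {G : Type*} [Group G]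
variable {V : Type*} [NormedAddCommGroup V] [InnerProductSpace ℂ V] [FiniteDimensional ℂ V]

lemma chr_re_le (ρ : G →* (V ≃ₗᵢ[ℂ] V)) (g : G) : (chr ρ g).re ≤ Module.finrank ℂ V := by
  unfold chr
  set b := stdOrthonormalBasis ℂ V with hb
  rw [LinearMap.trace_eq_sum_inner _ b, Complex.re_sum]
  have h : ∀ i, (⟪b i, op ρ g (b i)⟫_ℂ).re ≤ 1 := by
    intro i
    refine (Complex.re_le_norm _).trans ((norm_inner_le_norm _ _).trans ?_)
    rw [op_apply, (ρ g).norm_map, b.norm_eq_one i]
    norm_num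
  refine (Finset.sum_le_sum fun i _ => h i).trans ?_
  simp

lemma En_le {k : ℕ} (ρ : G →* (V ≃ₗᵢ[ℂ] V)) (y : Fin k → G) (v : V) :
    En ρ y v ≤ 4 * k * ‖v‖ ^ 2 := by
  unfold En
  have h : ∀ i, ‖ρ (y i) v - v‖ ^ 2 ≤ 4 * ‖v‖ ^ 2 := by
    intro i
    have h1 : ‖ρ (y i) v - v‖ ≤ 2 * ‖v‖ := by
      refine (norm_sub_le _ _).trans ?_
      rw [(ρ (y i)).norm_map]
      linarith
    calc ‖ρ (y i) v - v‖ ^ 2 ≤ (2 * ‖v‖) ^ 2 := pow_le_pow_left₀ (norm_nonneg _) h1 2
      _ = 4 * ‖v‖ ^ 2 := by ring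
  refine (Finset.sum_le_sum fun i _ => h i).trans ?_
  rw [Finset.sum_const, Finset.card_univ, Fintype.card_fin, nsmul_eq_mul]
  apply le_of_eq
  ring

end

/-- the trace of a power of the walk as a sum over the words -/
lemma rtr_pow {G : Type*} [Group G] [Fintype G] {V : Type*} [NormedAddCommGroup V]
    [InnerProductSpace ℂ V] [FiniteDimensional ℂ V] (ρ : G →* (V ≃ₗᵢ[ℂ] V)) {k : ℕ} (hk : 1 ≤ k)
    (y : Fin k → G) (L : ℕ) :
    (4 * (k : ℝ)) ^ L * rtr (TL ρ y ^ L) = ∑ w : Fin L → Fin k × Fin 4, (chr ρ (wd y w)).re := by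
  have hk' : (k : ℝ) ≠ 0 := by
    have : k ≠ 0 := by omega
    exact_mod_cast this
  unfold rtr
  rw [TL_pow ρ hk, map_smul, map_sum, smul_eq_mul]
  have e1 : (1 / (4 * (k : ℂ))) ^ L = (((1 / (4 * (k : ℝ))) ^ L : ℝ) : ℂ) := by
    push_cast
    rfl
  rw [e1, Complex.re_ofReal_mul, Complex.re_sum, ← mul_assoc, ← mul_pow,
    mul_one_div_cancel (by positivity), one_pow, one_mul]
  rfl

end RET

open RET

/-- return probabilities on `m`-tuples from the energy inequality -/
theorem RET (n m k : ℕ) (hk : 1 ≤ k) (y : Fin k → Alt n) (c : ℝ) (hc0 : 0 ≤ c)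
    (hgap : ∀ f : V m n, ∑ a, f a = 0 → c * ‖f‖ ^ 2 ≤ En (repA m n) y f) (L : ℕ) :
    ∑ w : Fin L → Fin k × Fin 4,
        ((nfix ((wd y w : Alt n) : Equiv.Perm (Fin n))).descFactorial m : ℝ) ≤
      (4 * (k : ℝ)) ^ L * (1 + Fintype.card (Tup m n) * Real.exp (-(c * L / (4 * k)))) := by
  have hk0 : (0:ℝ) < k := by exact_mod_cast hk
  have e1 : ∑ w : Fin L → Fin k × Fin 4,
      ((nfix ((wd y w : Alt n) : Equiv.Perm (Fin n))).descFactorial m : ℝ) =
      (4 * (k : ℝ)) ^ L * rtr (TL (repA m n) y ^ L) := by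
    rw [rtr_pow _ hk]
    refine Finset.sum_congr rfl fun w _ => ?_
    rw [chr_repA, Complex.natCast_re]
  rw [e1]
  apply mul_le_mul_of_nonneg_left _ (by positivity)
  have h := pow_trace (TL (repA m n) y) (TL_symm _ y) (TL_one hk y) (c / (4 * k)) ?_ ?_ L
  · refine h.trans (le_of_eq ?_)
    congr 3
    ring
  · intro f _
    have h1 := TL_energy (repA m n) hk y f
    have h2 := En_le (repA m n) y f
    have h3 : En (repA m n) y f / (4 * k) ≤ ‖f‖ ^ 2 := by
      rw [div_le_iff₀ (by positivity)]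
      linarith
    linarith
  · intro f hf
    have h1 := TL_energy (repA m n) hk y f
    have h2 := hgap f hf
    have h3 : c * ‖f‖ ^ 2 / (4 * k) ≤ En (repA m n) y f / (4 * k) :=
      div_le_div_of_nonneg_right h2 (by positivity)
    have h4 : c * ‖f‖ ^ 2 / (4 * k) = c / (4 * k) * ‖f‖ ^ 2 := by ring
    rw [h4] at h3
    linarith

section
variable {V : Type*} [NormedAddCommGroup V] [InnerProductSpace ℂ V] [FiniteDimensional ℂ V]

/-- trace of a power of `TL` in a representation whose character is small at elements with few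
fixed points -/
theorem TRL (n m k F : ℕ) (hk : 1 ≤ k) (hmF : m ≤ F) (y : Fin k → Alt n) (c : ℝ) (hc0 : 0 ≤ c)
    (hgap : ∀ f : RC14.V m n, ∑ a, f a = 0 → c * ‖f‖ ^ 2 ≤ En (repA m n) y f) (L : ℕ)
    (ρ : Alt n →* (V ≃ₗᵢ[ℂ] V)) (β : ℝ) (hβ : 0 ≤ β)
    (hchar : ∀ g : Alt n, nfix (g : Equiv.Perm (Fin n)) ≤ F →
      ‖chr ρ g‖ ≤ β * Module.finrank ℂ V) :
    rtr (TL ρ y ^ L) ≤ (β + (1 + Fintype.card (Tup m n) * Real.exp (-(c * L / (4 * k)))) /
      (F.descFactorial m : ℝ)) * Module.finrank ℂ V := by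
  classical
  have hk0 : (0:ℝ) < k := by exact_mod_cast hk
  have hF0 : (0:ℝ) < (F.descFactorial m : ℝ) := by exact_mod_cast Nat.descFactorial_pos.mpr hmF
  set d : ℝ := (Module.finrank ℂ V : ℝ) with hd
  have hd0 : 0 ≤ d := Nat.cast_nonneg _
  set R : ℝ := 1 + Fintype.card (Tup m n) * Real.exp (-(c * L / (4 * k))) with hR
  have hret := RET n m k hk y c hc0 hgap L
  -- pointwise bound
  have hpt : ∀ w : Fin L → Fin k × Fin 4, (chr ρ (wd y w)).re ≤
      β * d + ((nfix ((wd y w : Alt n) : Equiv.Perm (Fin n))).descFactorial m : ℝ) /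
        (F.descFactorial m : ℝ) * d := by
    intro w
    have h0 : 0 ≤ ((nfix ((wd y w : Alt n) : Equiv.Perm (Fin n))).descFactorial m : ℝ) /
        (F.descFactorial m : ℝ) := by positivity
    by_cases h : nfix ((wd y w : Alt n) : Equiv.Perm (Fin n)) ≤ F
    · have h1 := (Complex.re_le_norm _).trans (hchar _ h)
      have h2 := mul_nonneg h0 hd0
      linarith
    · push Not at h
      have h1 := chr_re_le ρ (wd y w)
      have h2 : (F.descFactorial m : ℝ) ≤
          ((nfix ((wd y w : Alt n) : Equiv.Perm (Fin n))).descFactorial m : ℝ) := by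
        exact_mod_cast Nat.descFactorial_le m h.le
      have h3 : 1 ≤ ((nfix ((wd y w : Alt n) : Equiv.Perm (Fin n))).descFactorial m : ℝ) /
          (F.descFactorial m : ℝ) := by
        rw [one_le_div hF0]
        exact h2
      have h4 := mul_nonneg hβ hd0
      nlinarith
  have hsum := Finset.sum_le_sum (s := (Finset.univ : Finset (Fin L → Fin k × Fin 4)))
    fun w _ => hpt w
  have hcard : ∑ _w : Fin L → Fin k × Fin 4, β * d = (4 * (k : ℝ)) ^ L * (β * d) := by
    rw [Finset.sum_const, Finset.card_univ, Fintype.card_fun, Fintype.card_prod,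
      Fintype.card_fin, Fintype.card_fin, Fintype.card_fin, nsmul_eq_mul]
    push_cast
    ring
  have hsd : ∑ w : Fin L → Fin k × Fin 4,
      ((nfix ((wd y w : Alt n) : Equiv.Perm (Fin n))).descFactorial m : ℝ) /
        (F.descFactorial m : ℝ) * d = (∑ w : Fin L → Fin k × Fin 4,
      ((nfix ((wd y w : Alt n) : Equiv.Perm (Fin n))).descFactorial m : ℝ)) /
        (F.descFactorial m : ℝ) * d := by
    rw [← Finset.sum_mul, ← Finset.sum_div]
  rw [← rtr_pow ρ hk, Finset.sum_add_distrib, hcard, hsd] at hsum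
  have hP : (0:ℝ) < (4 * (k : ℝ)) ^ L := by positivity
  have h5 : (∑ w : Fin L → Fin k × Fin 4,
      ((nfix ((wd y w : Alt n) : Equiv.Perm (Fin n))).descFactorial m : ℝ)) /
      (F.descFactorial m : ℝ) * d ≤ (4 * (k : ℝ)) ^ L * (R / (F.descFactorial m : ℝ) * d) := by
    have h6 : (∑ w : Fin L → Fin k × Fin 4,
      ((nfix ((wd y w : Alt n) : Equiv.Perm (Fin n))).descFactorial m : ℝ)) /
      (F.descFactorial m : ℝ) ≤ (4 * (k : ℝ)) ^ L * R / (F.descFactorial m : ℝ) :=
      div_le_div_of_nonneg_right hret hF0.le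
    have h7 := mul_le_mul_of_nonneg_right h6 hd0
    refine h7.trans (le_of_eq ?_)
    ring
  have h8 : (4 * (k : ℝ)) ^ L * rtr (TL ρ y ^ L) ≤
      (4 * (k : ℝ)) ^ L * ((β + R / (F.descFactorial m : ℝ)) * d) := by
    calc (4 * (k : ℝ)) ^ L * rtr (TL ρ y ^ L) ≤ _ := hsum
      _ ≤ (4 * (k : ℝ)) ^ L * (β * d) + (4 * (k : ℝ)) ^ L * (R / (F.descFactorial m : ℝ) * d) := by
        linarith
      _ = _ := by ring
  exact le_of_mul_le_mul_left h8 hP

end

end RC14
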